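import Pool.Agent.N52.NH.Stm

/-! Step BLK of the project NH52 (helper608): block algebras for approximate representations of a
Kazhdan group. -/

set_option autoImplicit false

namespace Pool.Agent.N608.NH52.BLK

open Matrix Finset
open scoped ComplexOrder
open Pool.Agent.W661.RC Pool.Agent.W683.RC Pool.Agent.N303.KQ

theorem main : Pool.Agent.N52.NH.S_BLK := by
  intro G _ k γ hT hγ
  obtain ⟨C, hC, hptd⟩ := All.ptd G k γ hT hγ
  obtain ⟨K0, hK0, hfin⟩ := All.fin2 k C hC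
  refine ⟨K0, hK0, fun ε hε => ?_⟩
  obtain ⟨η, hη, hfin⟩ := hfin ε hε
  obtain ⟨δ, hδ, R, hR, hptd⟩ := hptd η hη
  obtain ⟨δ1, hδ1, hfin⟩ := hfin δ hδ
  refine ⟨R, δ1 / (R.card + 1), hR, by positivity, fun d U hd hU => ?_⟩
  obtain ⟨S, hS1, hS2⟩ := hptd d U
  have h2 : tr S.D ≤ δ1 * d := by
    rw [hS2, tr_Dfc]
    refine (sum_le_sum hU).trans ?_
    rw [sum_const, nsmul_eq_mul]
    have h6 : (R.card : ℝ) * (δ1 / (R.card + 1) * d) = (R.card : ℝ) / (R.card + 1) * (δ1 * d) := by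
      field_simp
    rw [h6]
    have h7 : (R.card : ℝ) / (R.card + 1) ≤ 1 := by
      rw [div_le_one (by positivity)]; linarith
    calc (R.card : ℝ) / (R.card + 1) * (δ1 * d) ≤ 1 * (δ1 * d) :=
          mul_le_mul_of_nonneg_right h7 (by positivity)
      _ = _ := one_mul _
  obtain ⟨O, b, hb, _, hO1, hO2, hO3⟩ := hfin d S hd h2
  have hu : S.u = fun s => (U s : Mt d) := by
    funext s
    exact hS1 s
  rw [hu] at hO1 hO2
  exact ⟨O, hO1, hO2, hO3⟩

end Pool.Agent.N608.NH52.BLK
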